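import Mathlib

/-! # The Malcev–Neumann division ring of a bi-ordered group

`MN k F` is the ring of functions `F → k` with well ordered support, `F` a group with a linear
order which is invariant under left and right multiplication; `k` a field.  It is a division
ring.  `MN.of : F →* MN k F` is the embedding of the group. -/

set_option autoImplicit false

namespace Pool.Agent.Helper45.BH

open Function Set

/-- functions with partially well ordered (= well ordered) support -/
@[ext]
structure MN (k F : Type*) [Field k] [Group F] [LinearOrder F] where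
  coeff : F → k
  pwo : (support coeff).IsPWO

section pwo

variable {F : Type*} [Group F] [LinearOrder F] [MulLeftMono F] [MulRightMono F]

theorem pwo_mul {s t : Set F} (hs : s.IsPWO) (ht : t.IsPWO) :
    ({x | ∃ g ∈ s, ∃ h ∈ t, g * h = x} : Set F).IsPWO := by
  have h : ({x | ∃ g ∈ s, ∃ h ∈ t, g * h = x} : Set F) =
      (fun p : F × F => p.1 * p.2) '' (s ×ˢ t) := by
    ext x
    simp only [mem_ofPred_eq, mem_image, mem_prod, Prod.exists]
    constructor
    · rintro ⟨g, hg, h, hh, rfl⟩
      exact ⟨g, h, ⟨hg, hh⟩, rfl⟩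
    · rintro ⟨g, h, ⟨hg, hh⟩, rfl⟩
      exact ⟨g, hg, h, hh, rfl⟩
  rw [h]
  exact (hs.prod ht).image_of_monotone (monotone_fst.mul' monotone_snd)

theorem finite_pair {s t : Set F} (hs : s.IsPWO) (ht : t.IsPWO) (a : F) :
    {g | g ∈ s ∧ g⁻¹ * a ∈ t}.Finite := by
  by_contra hinf
  have hinf' : {g | g ∈ s ∧ g⁻¹ * a ∈ t}.Infinite := hinf
  have hmem : ∀ n, ((hinf'.natEmbedding _ n : _) : F) ∈ s :=
    fun n => (hinf'.natEmbedding _ n).2.1
  obtain ⟨φ, hφ⟩ := hs.exists_monotone_subseq (f := fun n => ((hinf'.natEmbedding _ n : _) : F)) hmem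
  obtain ⟨m, n, mn, h⟩ := ht (fun n => ⟨((hinf'.natEmbedding _ (φ n) : _) : F)⁻¹ * a,
    (hinf'.natEmbedding _ (φ n)).2.2⟩)
  have h1 : ((hinf'.natEmbedding _ (φ n) : _) : F) ≤ ((hinf'.natEmbedding _ (φ m) : _) : F) := by
    have h' : ((hinf'.natEmbedding _ (φ m) : _) : F)⁻¹ * a ≤
      ((hinf'.natEmbedding _ (φ n) : _) : F)⁻¹ * a := h
    exact inv_le_inv_iff.1 ((mul_le_mul_iff_right a).1 h')
  have h2 : ((hinf'.natEmbedding _ (φ m) : _) : F) ≤ ((hinf'.natEmbedding _ (φ n) : _) : F) :=
    hφ mn.le
  have h3 : φ m = φ n := (hinf'.natEmbedding _).injective (Subtype.ext (le_antisymm h2 h1))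
  exact mn.ne (φ.injective h3)

theorem pwo_closure {s : Set F} (hpos : ∀ x ∈ s, 1 ≤ x) (h : s.IsPWO) :
    (Submonoid.closure s : Set F).IsPWO := by
  rw [Submonoid.closure_eq_image_prod]
  refine (h.partiallyWellOrderedOn_sublistForall₂ (· ≤ ·)).image_of_monotone_on ?_
  exact fun l1 _ l2 hl2 h12 => h12.prod_le_prod' fun x hx => hpos x <| hl2 x hx

end pwo

namespace MN

variable {k F : Type*} [Field k] [Group F] [LinearOrder F]

instance : Zero (MN k F) := ⟨⟨fun _ => 0, by simp⟩⟩

instance : Add (MN k F) := ⟨fun a b => ⟨fun g => a.coeff g + b.coeff g,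
  (a.pwo.union b.pwo).mono (support_add a.coeff b.coeff)⟩⟩

instance : Neg (MN k F) := ⟨fun a => ⟨fun g => - a.coeff g, by
  have h := support_neg a.coeff
  exact a.pwo.mono (le_of_eq h)⟩⟩

@[simp] theorem coeff_zero (g : F) : (0 : MN k F).coeff g = 0 := rfl
@[simp] theorem coeff_add (a b : MN k F) (g : F) : (a + b).coeff g = a.coeff g + b.coeff g := rfl
@[simp] theorem coeff_neg (a : MN k F) (g : F) : (-a).coeff g = - a.coeff g := rfl

/-- monomials -/
def single (g : F) (c : k) : MN k F := ⟨fun h => if h = g then c else 0, by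
  refine (isPWO_singleton g).mono ?_
  intro h hh
  by_contra hne
  have : h ≠ g := hne
  simp [this] at hh⟩

theorem coeff_single (g : F) (c : k) (h : F) :
    (single g c : MN k F).coeff h = if h = g then c else 0 := rfl

instance : One (MN k F) := ⟨single 1 1⟩

theorem coeff_one (h : F) : (1 : MN k F).coeff h = if h = 1 then 1 else 0 := rfl

variable [MulLeftMono F] [MulRightMono F]

theorem finite_mul (a b : MN k F) (h : F) :
    (support fun g => a.coeff g * b.coeff (g⁻¹ * h)).Finite :=
  (finite_pair a.pwo b.pwo h).subset fun g hg => by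
    have := mul_ne_zero_iff.1 hg
    exact ⟨this.1, this.2⟩

noncomputable instance : Mul (MN k F) := ⟨fun a b =>
  ⟨fun h => ∑ᶠ g, a.coeff g * b.coeff (g⁻¹ * h), by
    refine (pwo_mul a.pwo b.pwo).mono ?_
    intro h hh
    have hex : ∃ g, a.coeff g * b.coeff (g⁻¹ * h) ≠ 0 := by
      by_contra hno
      push Not at hno
      exact hh (by
        change (∑ᶠ g, a.coeff g * b.coeff (g⁻¹ * h)) = 0
        rw [finsum_congr hno, finsum_zero])
    obtain ⟨g, hg⟩ := hex
    have := mul_ne_zero_iff.1 hg
    exact ⟨g, this.1, g⁻¹ * h, this.2, by group⟩⟩⟩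

theorem coeff_mul (a b : MN k F) (h : F) :
    (a * b).coeff h = ∑ᶠ g, a.coeff g * b.coeff (g⁻¹ * h) := rfl

theorem coeff_single_mul (g : F) (c : k) (b : MN k F) (h : F) :
    (single g c * b).coeff h = c * b.coeff (g⁻¹ * h) := by
  rw [coeff_mul, finsum_eq_single _ g]
  · simp [coeff_single]
  · intro x hx
    simp [coeff_single, hx]

theorem coeff_mul_single (g : F) (c : k) (a : MN k F) (h : F) :
    (a * single g c).coeff h = a.coeff (h * g⁻¹) * c := by
  rw [coeff_mul, finsum_eq_single _ (h * g⁻¹)]
  · have : (h * g⁻¹)⁻¹ * h = g := by group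
    simp [coeff_single, this]
  · intro x hx
    have : x⁻¹ * h ≠ g := by
      intro e
      apply hx
      rw [← e]
      group
    simp [coeff_single, this]

theorem finite_triple (a b c : MN k F) (h : F) :
    (support fun p : F × F =>
      a.coeff p.1 * (b.coeff p.2 * c.coeff (p.2⁻¹ * (p.1⁻¹ * h)))).Finite := by
  have h1 := finite_pair a.pwo (pwo_mul b.pwo c.pwo) h
  have h2 : ∀ g ∈ {g | g ∈ support a.coeff ∧
      g⁻¹ * h ∈ ({x | ∃ g ∈ support b.coeff, ∃ h ∈ support c.coeff, g * h = x} : Set F)},
      ({p : F × F | p.1 = g ∧ p.2 ∈ support b.coeff ∧ p.2⁻¹ * (g⁻¹ * h) ∈ support c.coeff} :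
        Set (F × F)).Finite := by
    intro g _
    refine ((finite_pair b.pwo c.pwo (g⁻¹ * h)).image (fun v => (g, v))).subset ?_
    rintro ⟨x, v⟩ ⟨hx, hv, hw⟩
    simp only at hx hv hw
    subst hx
    exact ⟨v, ⟨hv, hw⟩, rfl⟩
  refine (h1.biUnion h2).subset ?_
  rintro ⟨g, v⟩ hp
  have e1 := mul_ne_zero_iff.1 hp
  have e2 := mul_ne_zero_iff.1 e1.2
  simp only [mem_iUnion, mem_ofPred_eq]
  refine ⟨g, ⟨e1.1, v, e2.1, v⁻¹ * (g⁻¹ * h), e2.2, by group⟩, rfl, e2.1, e2.2⟩

theorem mul_assoc' (a b c : MN k F) : a * b * c = a * (b * c) := by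
  ext h
  have hfin := finite_triple a b c h
  have hR : (a * (b * c)).coeff h = ∑ᶠ p : F × F,
      a.coeff p.1 * (b.coeff p.2 * c.coeff (p.2⁻¹ * (p.1⁻¹ * h))) := by
    rw [finsum_curry _ hfin, coeff_mul]
    refine finsum_congr fun g => ?_
    rw [coeff_mul, mul_finsum]
  let e : F × F ≃ F × F :=
    { toFun := fun p => (p.2, p.2⁻¹ * p.1)
      invFun := fun p => (p.1 * p.2, p.1)
      left_inv := fun p => by simp
      right_inv := fun p => by simp }
  have hL : (a * b * c).coeff h = ∑ᶠ p : F × F,
      a.coeff p.2 * (b.coeff (p.2⁻¹ * p.1) * c.coeff (p.1⁻¹ * h)) := by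
    have hfin2 : (support fun p : F × F =>
        a.coeff p.2 * (b.coeff (p.2⁻¹ * p.1) * c.coeff (p.1⁻¹ * h))).Finite := by
      have := hfin.preimage (f := e) e.injective.injOn
      refine this.subset ?_
      intro p hp
      simp only [mem_preimage, mem_support, e, Equiv.coe_fn_mk] at hp ⊢
      have e1 : (p.2⁻¹ * p.1)⁻¹ * (p.2⁻¹ * h) = p.1⁻¹ * h := by group
      rw [e1]
      exact hp
    rw [finsum_curry _ hfin2, coeff_mul]
    refine finsum_congr fun u => ?_
    rw [coeff_mul, finsum_mul]
    exact finsum_congr fun g => by ring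
  rw [hL, hR]
  refine Eq.trans (finsum_congr fun p => ?_) (finsum_comp_equiv e)
  simp only [e, Equiv.coe_fn_mk]
  have e1 : (p.2⁻¹ * p.1)⁻¹ * (p.2⁻¹ * h) = p.1⁻¹ * h := by group
  rw [e1]

noncomputable instance : Ring (MN k F) := Ring.ofMinimalAxioms
  (fun a b c => by ext g; simp [add_assoc])
  (fun a => by ext g; simp)
  (fun a => by ext g; simp)
  mul_assoc'
  (fun a => by
    ext h
    change (single (1 : F) (1 : k) * a).coeff h = a.coeff h
    rw [coeff_single_mul]
    simp)
  (fun a => by
    ext h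
    change (a * single (1 : F) (1 : k)).coeff h = a.coeff h
    rw [coeff_mul_single]
    simp)
  (fun a b c => by
    ext h
    simp only [coeff_add, coeff_mul]
    rw [← finsum_add_distrib (finite_mul a b h) (finite_mul a c h)]
    exact finsum_congr fun g => by ring)
  (fun a b c => by
    ext h
    simp only [coeff_add, coeff_mul]
    rw [← finsum_add_distrib (finite_mul a c h) (finite_mul b c h)]
    exact finsum_congr fun g => by ring)

@[simp] theorem coeff_sub (a b : MN k F) (g : F) : (a - b).coeff g = a.coeff g - b.coeff g := by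
  rw [sub_eq_add_neg, coeff_add, coeff_neg, sub_eq_add_neg]

instance : Nontrivial (MN k F) := ⟨⟨0, 1, fun h => by
  have := congrArg (fun a : MN k F => a.coeff 1) h
  simp [coeff_one] at this⟩⟩

theorem single_mul_single (g h : F) (c d : k) :
    (single g c * single h d : MN k F) = single (g * h) (c * d) := by
  ext x
  rw [coeff_single_mul, coeff_single, coeff_single]
  by_cases hx : x = g * h
  · subst hx
    simp
  · have : g⁻¹ * x ≠ h := fun e => hx (by rw [← e]; group)
    simp [this, hx]

/-- the embedding of the group -/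
noncomputable def of : F →* MN k F where
  toFun g := single g 1
  map_one' := rfl
  map_mul' g h := by rw [single_mul_single, one_mul]

theorem coeff_of (g h : F) : (of g : MN k F).coeff h = if h = g then 1 else 0 := rfl

theorem coeff_of_mul (g : F) (a : MN k F) (h : F) : (of g * a).coeff h = a.coeff (g⁻¹ * h) := by
  change (single g (1 : k) * a).coeff h = a.coeff (g⁻¹ * h)
  rw [coeff_single_mul, one_mul]

theorem coeff_mul_of (g : F) (a : MN k F) (h : F) : (a * of g).coeff h = a.coeff (h * g⁻¹) := by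
  change (a * single g (1 : k)).coeff h = a.coeff (h * g⁻¹)
  rw [coeff_mul_single, mul_one]

theorem of_injective : Injective (of : F → MN k F) := fun g h e => by
  have := congrArg (fun a : MN k F => a.coeff g) e
  simp only [coeff_of, if_true] at this
  by_contra hne
  rw [if_neg hne] at this
  exact one_ne_zero this

/-- `1 - x` has a right inverse if the support of `x` is positive -/
theorem exists_right_inv_one_sub (x : MN k F) (hx : ∀ g ∈ support x.coeff, 1 < g) :
    ∃ y : MN k F, (1 - x) * y = 1 := by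
  classical
  set T : Set F := (Submonoid.closure (support x.coeff) : Set F) with hT
  have hTpwo : T.IsPWO := pwo_closure (fun g hg => (hx g hg).le) x.pwo
  have hwf : T.WellFoundedOn (· < ·) := hTpwo.isWF
  have hfin : ∀ h : F, {g | g ∈ support x.coeff ∧ g⁻¹ * h ∈ T}.Finite :=
    fun h => finite_pair x.pwo hTpwo h
  -- recursion on `T`
  let step : ∀ h : T, (∀ h' : T, (h' : F) < h → k) → k := fun h rec =>
    (if (h : F) = 1 then 1 else 0) + ∑ g ∈ (hfin h).toFinset.attach,
      x.coeff g * rec ⟨(g : F)⁻¹ * h, ((hfin h).mem_toFinset.1 g.2).2⟩ (by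
        have h1 := hx g ((hfin h).mem_toFinset.1 g.2).1
        have h2 : (g : F)⁻¹ < 1 := inv_lt_one'.2 h1
        calc (g : F)⁻¹ * h < 1 * h := mul_lt_mul_left h2 _
          _ = h := one_mul _)
  have wf : WellFounded (fun a b : T => (a : F) < b) := hwf
  let f : T → k := wf.fix step
  have hf : ∀ h : T, f h = (if (h : F) = 1 then 1 else 0) + ∑ g ∈ (hfin h).toFinset.attach,
      x.coeff g * f ⟨(g : F)⁻¹ * h, ((hfin h).mem_toFinset.1 g.2).2⟩ := by
    intro h
    have := wf.fix_eq step h
    exact this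
  let y : MN k F := ⟨fun h => if hh : h ∈ T then f ⟨h, hh⟩ else 0, hTpwo.mono (fun h hh => by
    by_contra hne
    simp [hne] at hh)⟩
  have hy : ∀ h, y.coeff h = if hh : h ∈ T then f ⟨h, hh⟩ else 0 := fun _ => rfl
  refine ⟨y, ?_⟩
  ext h
  rw [sub_mul, coeff_sub, one_mul, coeff_mul, coeff_one]
  have hs : (∑ᶠ g, x.coeff g * y.coeff (g⁻¹ * h)) =
      ∑ g ∈ (hfin h).toFinset, x.coeff g * y.coeff (g⁻¹ * h) := by
    refine finsum_eq_sum_of_support_subset _ ?_
    intro g hg
    have e := mul_ne_zero_iff.1 hg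
    rw [Finite.coe_toFinset]
    refine ⟨e.1, ?_⟩
    by_contra hne
    exact e.2 (by rw [hy, dif_neg hne])
  rw [hs]
  by_cases hh : h ∈ T
  · rw [hy h, dif_pos hh, hf ⟨h, hh⟩]
    have : ∑ g ∈ (hfin h).toFinset.attach,
        x.coeff g * f ⟨(g : F)⁻¹ * h, ((hfin h).mem_toFinset.1 g.2).2⟩ =
        ∑ g ∈ (hfin h).toFinset, x.coeff g * y.coeff (g⁻¹ * h) := by
      rw [← Finset.sum_attach (hfin h).toFinset]
      refine Finset.sum_congr rfl fun g _ => ?_
      rw [hy, dif_pos ((hfin h).mem_toFinset.1 g.2).2]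
    simp only at this ⊢
    rw [this]
    ring
  · have h0 : (hfin h).toFinset = ∅ := by
      rw [Finset.eq_empty_iff_forall_notMem]
      intro g hg
      have e := (hfin h).mem_toFinset.1 hg
      apply hh
      have : h = g * (g⁻¹ * h) := by group
      rw [this]
      exact mul_mem (Submonoid.subset_closure e.1) e.2
    have h1 : h ≠ 1 := fun e => hh (by rw [e]; exact one_mem (Submonoid.closure _))
    rw [h0, hy h, dif_neg hh]
    simp [h1]

theorem exists_right_inv (a : MN k F) (ha : a ≠ 0) : ∃ y : MN k F, a * y = 1 := by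
  classical
  have hne : (support a.coeff).Nonempty := by
    by_contra h
    rw [not_nonempty_iff_eq_empty, support_eq_empty_iff] at h
    exact ha (MN.ext h)
  have hwf : (support a.coeff).IsWF := a.pwo.isWF
  set g0 := hwf.min hne with hg0
  have hg0m : a.coeff g0 ≠ 0 := hwf.min_mem hne
  set c := a.coeff g0 with hc
  set x : MN k F := 1 - single g0⁻¹ c⁻¹ * a with hx
  have hpos : ∀ g ∈ support x.coeff, 1 < g := by
    intro g hg
    have hg' : x.coeff g ≠ 0 := hg
    rw [hx, coeff_sub, coeff_one, coeff_single_mul, inv_inv] at hg'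
    rcases lt_trichotomy g 1 with h | h | h
    · exfalso
      have h1 : g0 * g < g0 := by
        calc g0 * g < g0 * 1 := mul_lt_mul_right h _
          _ = g0 := mul_one _
      have h2 : a.coeff (g0 * g) = 0 := by
        by_contra hne'
        exact hwf.not_lt_min hne hne' h1
      rw [h2, if_neg h.ne] at hg'
      simp at hg'
    · exfalso
      subst h
      rw [mul_one, if_pos rfl, ← hc, inv_mul_cancel₀ hg0m] at hg'
      simp at hg'
    · exact h
  obtain ⟨y, hy⟩ := exists_right_inv_one_sub x hpos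
  refine ⟨y * single g0⁻¹ c⁻¹, ?_⟩
  have h1 : a = single g0 c * (1 - x) := by
    rw [hx, sub_sub_cancel, ← mul_assoc, single_mul_single, mul_inv_cancel, mul_inv_cancel₀ hg0m]
    exact (one_mul a).symm
  rw [h1, mul_assoc, ← mul_assoc (1 - x), hy, one_mul, single_mul_single, mul_inv_cancel,
    mul_inv_cancel₀ hg0m]
  rfl

open Classical in
noncomputable instance : DivisionRing (MN k F) :=
  { (inferInstance : Ring (MN k F)), (inferInstance : Nontrivial (MN k F)) with
    inv := fun a => if h : a = 0 then 0 else Classical.choose (exists_right_inv a h)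
    mul_inv_cancel := fun a ha => by
      change a * (if h : a = 0 then 0 else Classical.choose (exists_right_inv a h)) = 1
      rw [dif_neg ha]
      exact Classical.choose_spec (exists_right_inv a ha)
    inv_zero := by
      change (if h : (0 : MN k F) = 0 then 0 else Classical.choose (exists_right_inv 0 h)) = 0
      rw [dif_pos rfl]
    nnqsmul := _
    nnqsmul_def := fun _ _ => rfl
    qsmul := _
    qsmul_def := fun _ _ => rfl }

/-- restriction of the coefficients to a subset -/
noncomputable def restr (w : Set F) : MN k F →+ MN k F where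
  toFun a := ⟨fun g => w.indicator a.coeff g, a.pwo.mono (by
    intro g hg
    have : w.indicator a.coeff g ≠ 0 := hg
    exact (indicator_apply_ne_zero.1 this).2)⟩
  map_zero' := by
    ext g
    change w.indicator (0 : MN k F).coeff g = 0
    by_cases h : g ∈ w <;> simp [h]
  map_add' a b := by
    ext g
    change w.indicator (a + b).coeff g = w.indicator a.coeff g + w.indicator b.coeff g
    by_cases h : g ∈ w <;> simp [h]

theorem coeff_restr_of_mem {w : Set F} {g : F} (h : g ∈ w) (a : MN k F) :
    (restr w a).coeff g = a.coeff g := indicator_of_mem h _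

theorem coeff_restr_of_notMem {w : Set F} {g : F} (h : g ∉ w) (a : MN k F) :
    (restr w a).coeff g = 0 := indicator_of_notMem h _

theorem restr_mul_of {w : Set F} {b : F} (hb : ∀ g, g * b ∈ w ↔ g ∈ w) (a : MN k F) :
    restr w (a * of b) = restr w a * of b := by
  ext g
  rw [coeff_mul_of]
  have h1 : g * b⁻¹ ∈ w ↔ g ∈ w := by
    rw [← hb (g * b⁻¹)]
    simp
  by_cases h : g ∈ w
  · rw [coeff_restr_of_mem h, coeff_restr_of_mem (h1.2 h), coeff_mul_of]
  · rw [coeff_restr_of_notMem h, coeff_restr_of_notMem (fun hh => h (h1.1 hh))]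

end MN

end Pool.Agent.Helper45.BH
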