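import Pool.Agent.Helper45.BH.MN
import Pool.Agent.Helper36.HL.BiOrder
import Pool.Agent.Helper72.BH.MNDefs

/-!
# The division ring of series over a free group exists

The abstract interface `Helper72.BH.MN R D` is satisfied by the Malcev-Neumann division ring of
series over `FreeGroup (Fin R)` with coefficients in `ZMod 2`.
-/

set_option autoImplicit false

namespace Pool.Agent.Helper45.BH

theorem exists_MN (R : ℕ) :
    ∃ (D : Type) (_ : DivisionRing D), Nonempty (Pool.Agent.Helper72.BH.MN R D) := by
  classical
  obtain ⟨L, hl, hr⟩ := Pool.Agent.Helper36.HL.exists_biOrder (Fin R)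
  refine ⟨MN (ZMod 2) (FreeGroup (Fin R)), inferInstance, ⟨?_⟩⟩
  exact
    { co := fun a g => a.coeff g
      u := MN.of
      co_inj := fun a b h => MN.ext h
      co_add := fun a b g => rfl
      co_u := fun g h => by
        rw [MN.coeff_of]
        by_cases hh : h = g
        · rw [if_pos hh, if_pos hh]
        · rw [if_neg hh, if_neg hh]
      co_u_mul := fun x a g => MN.coeff_of_mul x a g
      co_mul_u := fun a x g => MN.coeff_mul_of x a g
      fin := fun a b f => finite_pair a.pwo b.pwo f
      restr := fun S a => ⟨MN.restr S a, fun g hg => MN.coeff_restr_of_mem hg a,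
        fun g hg => MN.coeff_restr_of_notMem hg a⟩ }

end Pool.Agent.Helper45.BH
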