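import Pool.Agent.Helper45.BH.MN

/-! # Crossed homomorphisms and the injectivity lemma (project HL) -/

set_option autoImplicit false

namespace Pool.Agent.Helper45.BH

open Function Set

/-- crossed homomorphisms on a free group -/
theorem exists_crossed_free {ι R W : Type*} [Semiring R] [AddCommGroup W] [Module R W]
    (ρ : FreeGroup ι →* R) (f : ι → W) : ∃ χ : FreeGroup ι → W,
      (∀ i, χ (FreeGroup.of i) = f i) ∧ ∀ p q, χ (p * q) = χ p + ρ p • χ q := by
  have hinv : ∀ i, ρ (FreeGroup.of i)⁻¹ * ρ (FreeGroup.of i) = 1 := fun i => by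
    rw [← map_mul, inv_mul_cancel, map_one]
  have hinv' : ∀ i, ρ (FreeGroup.of i) * ρ (FreeGroup.of i)⁻¹ = 1 := fun i => by
    rw [← map_mul, mul_inv_cancel, map_one]
  let e : ι → Equiv.Perm W := fun i =>
    { toFun := fun w => ρ (FreeGroup.of i) • w + f i
      invFun := fun w => ρ (FreeGroup.of i)⁻¹ • (w - f i)
      left_inv := fun w => by
        simp only
        rw [add_sub_cancel_right, smul_smul, hinv, one_smul]
      right_inv := fun w => by
        simp only
        rw [smul_smul, hinv', one_smul, sub_add_cancel] }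
  let ψ : FreeGroup ι →* Equiv.Perm W := FreeGroup.lift e
  have h : ∀ p w, ψ p w = ρ p • w + ψ p 0 := by
    intro p
    induction p using FreeGroup.induction_on with
    | C1 => intro w; simp
    | of i =>
      intro w
      have e1 : ψ (FreeGroup.of i) = e i := FreeGroup.lift_apply_of
      change ψ (FreeGroup.of i) w = ρ (FreeGroup.of i) • w + ψ (FreeGroup.of i) 0
      rw [e1]
      simp [e]
    | inv_of i _ =>
      intro w
      have e1 : ψ (FreeGroup.of i)⁻¹ = (e i)⁻¹ := by
        rw [map_inv, show ψ (FreeGroup.of i) = e i from FreeGroup.lift_apply_of]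
      change ψ (FreeGroup.of i)⁻¹ w = ρ (FreeGroup.of i)⁻¹ • w + ψ (FreeGroup.of i)⁻¹ 0
      rw [e1]
      change ρ (FreeGroup.of i)⁻¹ • (w - f i) =
        ρ (FreeGroup.of i)⁻¹ • w + ρ (FreeGroup.of i)⁻¹ • (0 - f i)
      rw [← smul_add]
      congr 1
      abel
    | mul p q hp hq =>
      intro w
      have e1 : ∀ w, ψ (p * q) w = ψ p (ψ q w) := fun w => by
        rw [map_mul]
        rfl
      rw [e1, e1, hq w, hp, hp (ψ q 0), map_mul, smul_add, smul_smul]
      abel
  refine ⟨fun p => ψ p 0, fun i => ?_, fun p q => ?_⟩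
  · have e1 : ψ (FreeGroup.of i) = e i := FreeGroup.lift_apply_of
    change ψ (FreeGroup.of i) 0 = f i
    rw [e1]
    simp [e]
  · change ψ (p * q) 0 = ψ p 0 + ρ p • ψ q 0
    rw [map_mul]
    change ψ p (ψ q 0) = _
    rw [h p (ψ q 0)]
    abel

theorem exists_crossed {ι P R W : Type*} [Group P] (b : FreeGroupBasis ι P) [Semiring R]
    [AddCommGroup W] [Module R W] (ρ : P →* R) (f : ι → W) : ∃ χ : P → W,
      (∀ i, χ (b i) = f i) ∧ ∀ p q, χ (p * q) = χ p + ρ p • χ q := by
  obtain ⟨χ, h1, h2⟩ := exists_crossed_free (ρ.comp b.repr.symm.toMonoidHom) f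
  refine ⟨fun p => χ (b.repr p), fun i => ?_, fun p q => ?_⟩
  · simp only [FreeGroupBasis.repr_apply_coe]
    exact h1 i
  · simp only [map_mul, h2]
    simp

/-- values of a crossed homomorphism -/
theorem crossed_one {P R W : Type*} [Group P] [Semiring R] [AddCommGroup W] [Module R W]
    {ρ : P →* R} {χ : P → W} (h : ∀ p q, χ (p * q) = χ p + ρ p • χ q) : χ 1 = 0 := by
  have := h 1 1
  rw [mul_one, map_one, one_smul] at this
  simpa using this

theorem crossed_inv {P R W : Type*} [Group P] [Semiring R] [AddCommGroup W] [Module R W]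
    {ρ : P →* R} {χ : P → W} (h : ∀ p q, χ (p * q) = χ p + ρ p • χ q) (p : P) :
    χ p⁻¹ = -(ρ p⁻¹ • χ p) := by
  have := h p⁻¹ p
  rw [inv_mul_cancel, crossed_one h] at this
  exact eq_neg_of_add_eq_zero_left this.symm

/-- a finite one-cycle in the Cayley tree of a free group is zero -/
theorem tree_cycle {X k : Type*} [Fintype X] [Field k] (c : X → FreeGroup X → k)
    (hfin : ∀ x, (support (c x)).Finite)
    (h : ∀ g, ∑ x, c x g = ∑ x, c x (g * (FreeGroup.of x)⁻¹)) : c = 0 := by
  classical
  funext y g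
  -- the Fox derivative with respect to `y`
  let ρ : FreeGroup X →* Module.End k (FreeGroup X →₀ k) :=
    { toFun := fun g => Finsupp.lmapDomain k k (g * ·)
      map_one' := by
        refine LinearMap.ext fun w => ?_
        simp only [one_mul, Finsupp.lmapDomain_apply, Module.End.one_apply]
        exact Finsupp.mapDomain_id
      map_mul' := fun g h => by
        refine LinearMap.ext fun w => ?_
        simp only [Finsupp.lmapDomain_apply, Module.End.mul_apply]
        rw [← Finsupp.mapDomain_comp]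
        congr 1
        funext x
        simp [mul_assoc] }
  have hρ : ∀ g w, ρ g • (Finsupp.single w 1 : FreeGroup X →₀ k) = Finsupp.single (g * w) 1 := by
    intro g w
    change Finsupp.lmapDomain k k (g * ·) (Finsupp.single w 1) = _
    simp
  obtain ⟨d, hd1, hd2⟩ := exists_crossed_free ρ
    (fun x => if x = y then (Finsupp.single 1 1 : FreeGroup X →₀ k) else 0)
  let L : (FreeGroup X →₀ k) →ₗ[k] (FreeGroup X →₀ k) := Finsupp.linearCombination k d
  let C : X → (FreeGroup X →₀ k) := fun x => Finsupp.ofSupportFinite (c x) (hfin x)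
  have hC : ∀ x g, C x g = c x g := fun _ _ => rfl
  let C' : X → (FreeGroup X →₀ k) := fun x => (C x).embDomain (mulRightEmbedding (FreeGroup.of x))
  have hC' : ∀ x g, C' x g = c x (g * (FreeGroup.of x)⁻¹) := by
    intro x g
    have e1 : g = mulRightEmbedding (FreeGroup.of x) (g * (FreeGroup.of x)⁻¹) := by simp
    conv_lhs => rw [e1]
    rw [Finsupp.embDomain_apply_self]
    exact hC _ _
  have hsum : ∑ x, C' x = ∑ x, C x := by
    ext g
    rw [Finsupp.finsetSum_apply, Finsupp.finsetSum_apply]
    simp only [hC', hC]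
    exact (h g).symm
  have hL : ∀ x, L (C' x) = L (C x) + if x = y then
      ((C x).sum fun g a => a • (Finsupp.single g 1 : FreeGroup X →₀ k)) else 0 := by
    intro x
    have e1 : L (C' x) = (C x).sum fun g a => a • d (g * FreeGroup.of x) := by
      change Finsupp.linearCombination k d ((C x).embDomain _) = _
      rw [Finsupp.linearCombination_embDomain]
      rfl
    have e2 : L (C x) = (C x).sum fun g a => a • d g := rfl
    rw [e1, e2]
    simp only [hd2, hd1, smul_add]
    rw [Finsupp.sum_add]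
    congr 1
    by_cases hxy : x = y
    · simp only [hxy, if_true, hρ, mul_one]
    · simp [hxy]
  have h0 : ((C y).sum fun g a => a • (Finsupp.single g 1 : FreeGroup X →₀ k)) = 0 := by
    have e1 : L (∑ x, C' x) = L (∑ x, C x) := by rw [hsum]
    rw [map_sum, map_sum] at e1
    simp only [hL] at e1
    rw [Finset.sum_add_distrib, Finset.sum_ite_eq' Finset.univ y] at e1
    simpa using e1
  have h1 : ((C y).sum fun g a => a • (Finsupp.single g 1 : FreeGroup X →₀ k)) = C y := by
    simp only [Finsupp.smul_single, smul_eq_mul, mul_one]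
    exact Finsupp.sum_single _
  rw [h1] at h0
  have := DFunLike.congr_fun h0 g
  exact this

/-! ## the crossed homomorphism `delta` -/

section delta

variable {X k : Type*} [Fintype X] [DecidableEq X] [Field k] [LinearOrder (FreeGroup X)]
  [MulLeftMono (FreeGroup X)] [MulRightMono (FreeGroup X)]

theorem exists_delta (X k : Type*) [Fintype X] [DecidableEq X] [Field k]
    [LinearOrder (FreeGroup X)] [MulLeftMono (FreeGroup X)] [MulRightMono (FreeGroup X)] :
    ∃ χ : FreeGroup X → (X → MN k (FreeGroup X)),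
      (∀ i, χ (FreeGroup.of i) = Pi.single i 1) ∧
        ∀ p q, χ (p * q) = χ p + (MN.of p : MN k (FreeGroup X)) • χ q :=
  exists_crossed_free MN.of fun i => Pi.single i (1 : MN k (FreeGroup X))

/-- the universal crossed homomorphism (Fox calculus) -/
noncomputable def delta (k : Type*) [Field k] (g : FreeGroup X) : X → MN k (FreeGroup X) :=
  Classical.choose (exists_delta X k) g

theorem delta_of (i : X) : delta k (FreeGroup.of i) = Pi.single i 1 :=
  (Classical.choose_spec (exists_delta X k)).1 i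

theorem delta_mul (g h : FreeGroup X) :
    delta k (g * h) = delta k g + (MN.of g : MN k (FreeGroup X)) • delta k h :=
  (Classical.choose_spec (exists_delta X k)).2 g h

@[simp] theorem delta_one : delta k (1 : FreeGroup X) = 0 :=
  crossed_one (ρ := (MN.of : FreeGroup X →* MN k (FreeGroup X))) delta_mul

theorem delta_inv (g : FreeGroup X) :
    delta k g⁻¹ = -((MN.of g⁻¹ : MN k (FreeGroup X)) • delta k g) :=
  crossed_inv (ρ := (MN.of : FreeGroup X →* MN k (FreeGroup X))) delta_mul g

/-- the span of the values of `delta` -/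
noncomputable def VS (k : Type*) [Field k] (A : Set (FreeGroup X)) :
    Submodule (MN k (FreeGroup X)) (X → MN k (FreeGroup X)) :=
  Submodule.span _ (delta k '' A)

theorem delta_mem_VS {A : Set (FreeGroup X)} {g : FreeGroup X} (h : g ∈ A) :
    delta k g ∈ VS k A := Submodule.subset_span ⟨g, h, rfl⟩

theorem VS_mono {A B : Set (FreeGroup X)} (h : A ⊆ B) : VS k A ≤ VS k B :=
  Submodule.span_mono (image_mono h)

/-- the elements with `delta` in a subspace -/
noncomputable def inSpace (W : Submodule (MN k (FreeGroup X)) (X → MN k (FreeGroup X))) :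
    Subgroup (FreeGroup X) where
  carrier := {g | delta k g ∈ W}
  one_mem' := by simp
  mul_mem' := fun {a b} ha hb => by
    change delta k (a * b) ∈ W
    rw [delta_mul]
    exact W.add_mem ha (W.smul_mem _ hb)
  inv_mem' := fun {a} ha => by
    change delta k a⁻¹ ∈ W
    rw [delta_inv]
    exact W.neg_mem (W.smul_mem _ ha)

theorem mem_inSpace {W : Submodule (MN k (FreeGroup X)) (X → MN k (FreeGroup X))}
    {g : FreeGroup X} : g ∈ inSpace W ↔ delta k g ∈ W := Iff.rfl

/-- the closure of a subset -/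
noncomputable def cl (k : Type*) [Field k] (A : Set (FreeGroup X)) : Subgroup (FreeGroup X) := inSpace (VS k A)

theorem subset_cl (A : Set (FreeGroup X)) : A ⊆ cl k A := fun _ hg => delta_mem_VS hg

theorem VS_cl (A : Set (FreeGroup X)) : VS k (cl k A : Set (FreeGroup X)) = VS k A := by
  refine le_antisymm ?_ (VS_mono (subset_cl A))
  refine Submodule.span_le.2 ?_
  rintro _ ⟨g, hg, rfl⟩
  exact hg

theorem VS_closure (A : Set (FreeGroup X)) :
    VS k (Subgroup.closure A : Set (FreeGroup X)) = VS k A := by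
  refine le_antisymm ?_ (VS_mono Subgroup.subset_closure)
  refine Submodule.span_le.2 ?_
  rintro _ ⟨g, hg, rfl⟩
  have : Subgroup.closure A ≤ cl k A := (Subgroup.closure_le _).2 (subset_cl A)
  exact this hg

theorem VS_sup (A B : Set (FreeGroup X)) : VS k (A ∪ B) = VS k A ⊔ VS k B := by
  rw [VS, image_union, Submodule.span_union]
  rfl

theorem VS_join (A B : Subgroup (FreeGroup X)) :
    VS k ((A ⊔ B : Subgroup (FreeGroup X)) : Set (FreeGroup X)) =
      VS k (A : Set (FreeGroup X)) ⊔ VS k (B : Set (FreeGroup X)) := by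
  rw [← VS_sup, ← VS_closure ((A : Set (FreeGroup X)) ∪ B), Subgroup.closure_union,
    Subgroup.closure_eq, Subgroup.closure_eq]

/-- closed subgroups -/
def IsCl (k : Type*) [Field k] (P : Subgroup (FreeGroup X)) : Prop :=
  ∀ g, delta k g ∈ VS k (P : Set (FreeGroup X)) → g ∈ P

theorem isCl_cl (A : Set (FreeGroup X)) : IsCl k (cl k A) := fun g hg => by
  rw [VS_cl] at hg
  exact hg

theorem VS_top : VS k (univ : Set (FreeGroup X)) = ⊤ := by
  rw [eq_top_iff]
  intro v _
  rw [pi_eq_sum_univ v]
  refine Submodule.sum_mem _ fun i _ => ?_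
  have e1 : (fun j => if i = j then (1 : MN k (FreeGroup X)) else 0) = delta k (FreeGroup.of i) := by
    rw [delta_of]
    funext j
    by_cases h : i = j
    · subst h
      simp
    · have : j ≠ i := fun e => h e.symm
      simp [h, this]
  rw [e1]
  exact Submodule.smul_mem _ _ (delta_mem_VS (mem_univ _))

/-! ## the injectivity lemma -/

/-- the function `lam_(phi,h)` on the left cosets of `P` -/
noncomputable def lam (P : Subgroup (FreeGroup X))
    (φ : (X → MN k (FreeGroup X)) →ₗ[MN k (FreeGroup X)] MN k (FreeGroup X)) (h : FreeGroup X)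
    (u : FreeGroup X ⧸ P) : k := (φ (delta k u.out)).coeff h

theorem lam_mk {P : Subgroup (FreeGroup X)}
    {φ : (X → MN k (FreeGroup X)) →ₗ[MN k (FreeGroup X)] MN k (FreeGroup X)}
    (hφ : VS k (P : Set (FreeGroup X)) ≤ LinearMap.ker φ) (h f : FreeGroup X) :
    lam P φ h (f : FreeGroup X ⧸ P) = (φ (delta k f)).coeff h := by
  obtain ⟨p, hp⟩ := QuotientGroup.mk_out_eq_mul P f
  rw [lam, hp, delta_mul, map_add, map_smul]
  have : φ (delta k (p : FreeGroup X)) = 0 := hφ (delta_mem_VS p.2)
  rw [this, smul_zero, add_zero]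

theorem lam_smul {P : Subgroup (FreeGroup X)}
    {φ : (X → MN k (FreeGroup X)) →ₗ[MN k (FreeGroup X)] MN k (FreeGroup X)}
    (hφ : VS k (P : Set (FreeGroup X)) ≤ LinearMap.ker φ) (h g : FreeGroup X)
    (u : FreeGroup X ⧸ P) :
    lam P φ h (g • u) = (φ (delta k g)).coeff h + lam P φ (g⁻¹ * h) u := by
  obtain ⟨f, rfl⟩ := QuotientGroup.mk_surjective u
  have e1 : g • (f : FreeGroup X ⧸ P) = ((g * f : FreeGroup X) : FreeGroup X ⧸ P) := rfl
  rw [e1, lam_mk hφ, lam_mk hφ, delta_mul, map_add, map_smul, MN.coeff_add, smul_eq_mul,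
    MN.coeff_of_mul]

/-- the coefficient as an additive map -/
def coeffHom (a : FreeGroup X) : MN k (FreeGroup X) →+ k where
  toFun d := d.coeff a
  map_zero' := rfl
  map_add' _ _ := rfl

theorem coeffHom_apply (a : FreeGroup X) (d : MN k (FreeGroup X)) :
    coeffHom a d = d.coeff a := rfl

section nu

variable {P : Subgroup (FreeGroup X)} {ν : FreeGroup X ⧸ P → X → MN k (FreeGroup X)}

/-- the set of test functions -/
def GG (ν : FreeGroup X ⧸ P → X → MN k (FreeGroup X)) : Set (FreeGroup X ⧸ P → k) :=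
  {p | ∀ (g a : FreeGroup X) (x : X), ∑ᶠ u, (ν u x).coeff a * p (g • u) = 0}

theorem fin_aux (hfin : {u | ν u ≠ 0}.Finite) (x : X) (a : FreeGroup X)
    (q : FreeGroup X ⧸ P → k) : (support fun u => (ν u x).coeff a * q u).Finite := by
  refine hfin.subset ?_
  intro u hu h0
  apply hu
  simp only
  rw [h0]
  simp

theorem GG_add (hfin : {u | ν u ≠ 0}.Finite) {p q : FreeGroup X ⧸ P → k} (hp : p ∈ GG ν)
    (hq : q ∈ GG ν) : p + q ∈ GG ν := by
  intro g a x
  simp only [Pi.add_apply, mul_add]
  rw [finsum_add_distrib (fin_aux hfin x a fun u => p (g • u))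
    (fin_aux hfin x a fun u => q (g • u)), hp g a x, hq g a x, add_zero]

theorem GG_smul {p : FreeGroup X ⧸ P → k} (hp : p ∈ GG ν) (c : k) : c • p ∈ GG ν := by
  intro g a x
  have e1 : ∀ u, (ν u x).coeff a * (c • p) (g • u) = c * ((ν u x).coeff a * p (g • u)) := by
    intro u
    rw [Pi.smul_apply, smul_eq_mul]
    ring
  rw [finsum_congr e1, ← mul_finsum, hp g a x, mul_zero]

theorem GG_translate {p : FreeGroup X ⧸ P → k} (hp : p ∈ GG ν) (g0 : FreeGroup X) :
    (fun u => p (g0 • u)) ∈ GG ν := by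
  intro g a x
  have := hp (g0 * g) a x
  simp only [mul_smul] at this
  exact this

variable {φ : (X → MN k (FreeGroup X)) →ₗ[MN k (FreeGroup X)] MN k (FreeGroup X)}

theorem GG_key (hfin : {u | ν u ≠ 0}.Finite)
    (h1 : ∀ u, ∑ x, ν u x = ∑ x, ν (FreeGroup.of x • u) x * MN.of (FreeGroup.of x))
    (hφ : VS k (P : Set (FreeGroup X)) ≤ LinearMap.ker φ) {p : FreeGroup X ⧸ P → k}
    (hp : p ∈ GG ν) (h' a : FreeGroup X) (x : X) :
    ∑ᶠ u, (ν u x).coeff a * (lam P φ h' u * p (a • u)) = 0 := by
  set f := a * h' with hf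
  let c : X → FreeGroup X → k := fun x g =>
    ∑ᶠ u, (ν u x).coeff g * (lam P φ (g⁻¹ * f) u * p (g • u))
  have hcfin : ∀ x, (support (c x)).Finite := by
    intro x
    have h2 : ∀ u ∈ {u | ν u ≠ 0}, {g | g ∈ support (ν u x).coeff ∧
        g⁻¹ * f ∈ support (φ (delta k u.out)).coeff}.Finite :=
      fun u _ => finite_pair (ν u x).pwo (φ (delta k u.out)).pwo f
    refine (hfin.biUnion h2).subset ?_
    intro g hg
    have hex : ∃ u, (ν u x).coeff g * (lam P φ (g⁻¹ * f) u * p (g • u)) ≠ 0 := by
      by_contra hno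
      push Not at hno
      exact hg (by
        change (∑ᶠ u, (ν u x).coeff g * (lam P φ (g⁻¹ * f) u * p (g • u))) = 0
        rw [finsum_congr hno, finsum_zero])
    obtain ⟨u, hu⟩ := hex
    have e1 := mul_ne_zero_iff.1 hu
    have e2 := mul_ne_zero_iff.1 e1.2
    simp only [mem_iUnion]
    refine ⟨u, ?_, e1.1, e2.1⟩
    intro h0
    apply e1.1
    rw [h0]
    rfl
  have hcyc : ∀ g, ∑ x, c x g = ∑ x, c x (g * (FreeGroup.of x)⁻¹) := by
    intro g
    have hco : ∀ u, ∑ x, (ν u x).coeff g =
        ∑ x, (ν (FreeGroup.of x • u) x).coeff (g * (FreeGroup.of x)⁻¹) := by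
      intro u
      have := congrArg (coeffHom g) (h1 u)
      rw [map_sum, map_sum] at this
      simp only [coeffHom_apply, MN.coeff_mul_of] at this
      exact this
    have hL : ∑ x, c x g =
        ∑ᶠ u, ∑ x, (ν u x).coeff g * (lam P φ (g⁻¹ * f) u * p (g • u)) := by
      rw [finsum_sum_comm]
      intro x _
      exact fin_aux hfin x g fun u => lam P φ (g⁻¹ * f) u * p (g • u)
    have hfin2 : ∀ x, (support fun u => (ν (FreeGroup.of x • u) x).coeff
        (g * (FreeGroup.of x)⁻¹) * (lam P φ (g⁻¹ * f) u * p (g • u))).Finite := by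
      intro x
      have h3 : {u : FreeGroup X ⧸ P | ν (FreeGroup.of x • u) ≠ 0}.Finite :=
        hfin.preimage (MulAction.injective (FreeGroup.of x)).injOn
      refine h3.subset ?_
      intro u hu h0
      apply hu
      simp only
      rw [h0]
      simp
    have hR : ∑ᶠ u, ∑ x, (ν u x).coeff g * (lam P φ (g⁻¹ * f) u * p (g • u)) =
        ∑ x, ∑ᶠ u, (ν (FreeGroup.of x • u) x).coeff (g * (FreeGroup.of x)⁻¹) *
          (lam P φ (g⁻¹ * f) u * p (g • u)) := by
      rw [← finsum_sum_comm _ _ fun x _ => hfin2 x]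
      refine finsum_congr fun u => ?_
      rw [← Finset.sum_mul, ← Finset.sum_mul, hco u]
    rw [hL, hR]
    refine Finset.sum_congr rfl fun x _ => ?_
    have e3 := finsum_comp_equiv (MulAction.toPerm (FreeGroup.of x) : Equiv.Perm (FreeGroup X ⧸ P))
      (f := fun w => (ν w x).coeff (g * (FreeGroup.of x)⁻¹) *
        (lam P φ (g⁻¹ * f) ((FreeGroup.of x)⁻¹ • w) * p (g • (FreeGroup.of x)⁻¹ • w)))
    simp only [MulAction.toPerm_apply, inv_smul_smul] at e3
    rw [e3]
    have e4 : ∀ w, (ν w x).coeff (g * (FreeGroup.of x)⁻¹) *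
        (lam P φ (g⁻¹ * f) ((FreeGroup.of x)⁻¹ • w) * p (g • (FreeGroup.of x)⁻¹ • w)) =
        (φ (delta k (FreeGroup.of x)⁻¹)).coeff (g⁻¹ * f) *
          ((ν w x).coeff (g * (FreeGroup.of x)⁻¹) * p ((g * (FreeGroup.of x)⁻¹) • w)) +
        (ν w x).coeff (g * (FreeGroup.of x)⁻¹) *
          (lam P φ ((g * (FreeGroup.of x)⁻¹)⁻¹ * f) w * p ((g * (FreeGroup.of x)⁻¹) • w)) := by
      intro w
      rw [lam_smul hφ, ← mul_smul]
      have e5 : ((FreeGroup.of x)⁻¹)⁻¹ * (g⁻¹ * f) = (g * (FreeGroup.of x)⁻¹)⁻¹ * f := by group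
      rw [e5]
      ring
    rw [finsum_congr e4, finsum_add_distrib, ← mul_finsum, hp _ _ x, mul_zero, zero_add]
    · have e6 := fin_aux hfin x (g * (FreeGroup.of x)⁻¹)
        fun w => (φ (delta k (FreeGroup.of x)⁻¹)).coeff (g⁻¹ * f) *
          p ((g * (FreeGroup.of x)⁻¹) • w)
      refine e6.subset ?_
      intro w hw h0
      apply hw
      simp only at h0 ⊢
      linear_combination h0
    · exact fin_aux hfin x (g * (FreeGroup.of x)⁻¹)
        fun w => lam P φ ((g * (FreeGroup.of x)⁻¹)⁻¹ * f) w * p ((g * (FreeGroup.of x)⁻¹) • w)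
  have hc := tree_cycle c hcfin hcyc
  have := congrFun (congrFun hc x) a
  have e7 : a⁻¹ * f = h' := by rw [hf]; group
  simp only [c, e7] at this
  exact this

theorem GG_lam (hfin : {u | ν u ≠ 0}.Finite)
    (h1 : ∀ u, ∑ x, ν u x = ∑ x, ν (FreeGroup.of x • u) x * MN.of (FreeGroup.of x))
    (hφ : VS k (P : Set (FreeGroup X)) ≤ LinearMap.ker φ) {p : FreeGroup X ⧸ P → k}
    (hp : p ∈ GG ν) (h : FreeGroup X) : (fun u => lam P φ h u * p u) ∈ GG ν := by
  intro g a x
  have e1 : ∀ u, (ν u x).coeff a * (lam P φ h (g • u) * p (g • u)) =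
      (φ (delta k g)).coeff h * ((ν u x).coeff a * p (g • u)) +
      (ν u x).coeff a * (lam P φ (g⁻¹ * h) u * (fun v => p ((g * a⁻¹) • v)) (a • u)) := by
    intro u
    rw [lam_smul hφ]
    simp only
    rw [← mul_smul, inv_mul_cancel_right]
    ring
  have e2 := GG_key hfin h1 hφ (GG_translate hp (g * a⁻¹)) (g⁻¹ * h) a x
  change ∑ᶠ u, (ν u x).coeff a * (lam P φ h (g • u) * p (g • u)) = 0
  rw [finsum_congr e1, finsum_add_distrib, ← mul_finsum, hp g a x, mul_zero, zero_add]
  · exact e2
  · have e6 := fin_aux hfin x a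
      fun w => (φ (delta k g)).coeff h * p (g • w)
    refine e6.subset ?_
    intro w hw h0
    apply hw
    simp only at h0 ⊢
    linear_combination h0
  · exact fin_aux hfin x a
      fun u => lam P φ (g⁻¹ * h) u * (fun v => p ((g * a⁻¹) • v)) (a • u)

/-- the INJECTIVITY LEMMA -/
theorem injectivity (hP : IsCl k P) (hfin : {u | ν u ≠ 0}.Finite)
    (h1 : ∀ u, ∑ x, ν u x = ∑ x, ν (FreeGroup.of x • u) x * MN.of (FreeGroup.of x))
    (h2 : ∀ x, ∑ᶠ u, ν u x = 0) : ν = 0 := by
  classical
  have hone : (fun _ => 1 : FreeGroup X ⧸ P → k) ∈ GG ν := by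
    intro g a x
    have e1 := congrArg (coeffHom a) (h2 x)
    have hf : (support fun u => ν u x).Finite := by
      refine hfin.subset ?_
      intro u hu h0
      apply hu
      simp only
      rw [h0]
      rfl
    rw [AddMonoidHom.map_finsum _ hf, map_zero] at e1
    simp only [mul_one]
    exact e1
  funext u0 x
  by_contra hne
  have hsep : ∀ T : Finset (FreeGroup X ⧸ P), u0 ∉ T →
      ∃ p ∈ GG ν, p u0 ≠ 0 ∧ ∀ u ∈ T, p u = 0 := by
    intro T
    induction T using Finset.induction_on with
    | empty => intro _; exact ⟨_, hone, one_ne_zero, by simp⟩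
    | insert u1 T hu1 ih =>
      intro hu0
      rw [Finset.mem_insert, not_or] at hu0
      obtain ⟨p, hp, hp0, hpT⟩ := ih hu0.2
      have hnot : delta k u0.out - delta k u1.out ∉ VS k (P : Set (FreeGroup X)) := by
        intro hmem
        have e1 : delta k u0.out = delta k u1.out +
            (MN.of u1.out : MN k (FreeGroup X)) • delta k (u1.out⁻¹ * u0.out) := by
          rw [← delta_mul]
          congr 1
          group
        rw [e1, add_sub_cancel_left] at hmem
        have e2 := Submodule.smul_mem _ (MN.of (u1.out)⁻¹ : MN k (FreeGroup X)) hmem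
        rw [smul_smul, ← map_mul, inv_mul_cancel, map_one, one_smul] at e2
        have e3 := hP _ e2
        have e4 : (u1.out : FreeGroup X ⧸ P) = (u0.out : FreeGroup X ⧸ P) :=
          QuotientGroup.eq.2 e3
        rw [QuotientGroup.out_eq', QuotientGroup.out_eq'] at e4
        exact hu0.1 e4.symm
      obtain ⟨φ, hφ1, hφ⟩ := Submodule.exists_le_ker_of_notMem hnot
      have hex : ∃ h, (φ (delta k u0.out - delta k u1.out)).coeff h ≠ 0 := by
        by_contra hno
        push Not at hno
        exact hφ1 (MN.ext (funext hno))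
      obtain ⟨h, hh⟩ := hex
      rw [map_sub, MN.coeff_sub] at hh
      have hl : lam P φ h u0 - lam P φ h u1 ≠ 0 := hh
      refine ⟨(fun u => lam P φ h u * p u) + (-lam P φ h u1) • p,
        GG_add hfin (GG_lam hfin h1 hφ hp h) (GG_smul hp _), ?_, ?_⟩
      · simp only [Pi.add_apply, Pi.smul_apply, smul_eq_mul]
        have e5 : lam P φ h u0 * p u0 + -lam P φ h u1 * p u0 =
            (lam P φ h u0 - lam P φ h u1) * p u0 := by ring
        rw [e5]
        exact mul_ne_zero hl hp0
      · intro u hu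
        simp only [Pi.add_apply, Pi.smul_apply, smul_eq_mul]
        rcases Finset.mem_insert.1 hu with rfl | hu'
        · ring
        · rw [hpT u hu']
          ring
  obtain ⟨p, hp, hp0, hpT⟩ := hsep (hfin.toFinset.erase u0) (Finset.notMem_erase _ _)
  apply hne
  refine MN.ext (funext fun a => ?_)
  have e1 := hp 1 a x
  rw [finsum_eq_single _ u0] at e1
  · rw [one_smul] at e1
    rcases mul_eq_zero.1 e1 with h | h
    · exact h
    · exact absurd h hp0
  · intro u hu
    rw [one_smul]
    by_cases h0 : ν u = 0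
    · rw [h0]
      simp
    · rw [hpT u (Finset.mem_erase.2 ⟨hu, hfin.mem_toFinset.2 h0⟩), mul_zero]

end nu

end delta

end Pool.Agent.Helper45.BH
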