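import Pool.Agent.Helper45.BH.Inj

/-! # Closed subgroups: `delta` of a free basis is linearly independent (project HL, (3)) -/

set_option autoImplicit false

namespace Pool.Agent.Helper45.BH

open Function Set

theorem crossed_ext {ι R W : Type*} [Semiring R] [AddCommGroup W] [Module R W]
    {ρ : FreeGroup ι →* R} {χ ψ : FreeGroup ι → W} (hχ : ∀ p q, χ (p * q) = χ p + ρ p • χ q)
    (hψ : ∀ p q, ψ (p * q) = ψ p + ρ p • ψ q)
    (h : ∀ i, χ (FreeGroup.of i) = ψ (FreeGroup.of i)) : χ = ψ := by
  funext g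
  induction g using FreeGroup.induction_on with
  | C1 => rw [crossed_one hχ, crossed_one hψ]
  | of i => exact h i
  | inv_of i _ => rw [crossed_inv hχ, crossed_inv hψ, h]
  | mul p q hp hq => rw [hχ, hψ, hp, hq]

section rank

variable {X k : Type*} [Fintype X] [DecidableEq X] [Field k] [LinearOrder (FreeGroup X)]
  [MulLeftMono (FreeGroup X)] [MulRightMono (FreeGroup X)]

/-- the action of the free group on functions on the cosets with values in a module -/
noncomputable def shift (k : Type*) [Field k] (P : Subgroup (FreeGroup X)) (M : Type*)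
    [AddCommGroup M] [Module (MN k (FreeGroup X)) M] :
    FreeGroup X →* AddMonoid.End (FreeGroup X ⧸ P → M) where
  toFun g :=
    { toFun := fun f u => (MN.of g : MN k (FreeGroup X)) • f (g⁻¹ • u)
      map_zero' := by
        funext u
        simp
      map_add' := fun f f' => by
        funext u
        simp }
  map_one' := by
    refine AddMonoidHom.ext fun f => funext fun u => ?_
    change (MN.of 1 : MN k (FreeGroup X)) • f ((1 : FreeGroup X)⁻¹ • u) = f u
    rw [map_one, one_smul, inv_one, one_smul]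
  map_mul' := fun g h => by
    refine AddMonoidHom.ext fun f => funext fun u => ?_
    change (MN.of (g * h) : MN k (FreeGroup X)) • f ((g * h)⁻¹ • u) =
      (MN.of g : MN k (FreeGroup X)) • ((MN.of h : MN k (FreeGroup X)) • f (h⁻¹ • g⁻¹ • u))
    rw [map_mul, mul_smul, mul_inv_rev, mul_smul]

theorem shift_apply (P : Subgroup (FreeGroup X)) {M : Type*}
    [AddCommGroup M] [Module (MN k (FreeGroup X)) M] (g : FreeGroup X)
    (f : FreeGroup X ⧸ P → M) (u : FreeGroup X ⧸ P) :
    (shift k P M g • f) u = (MN.of g : MN k (FreeGroup X)) • f (g⁻¹ • u) := rfl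

/-- crossed homomorphisms with respect to `shift` -/
def IsSh (k : Type*) [Field k] {P : Subgroup (FreeGroup X)} {M : Type*}
    [AddCommGroup M] [Module (MN k (FreeGroup X)) M]
    (χ : FreeGroup X → FreeGroup X ⧸ P → M) : Prop :=
  ∀ p q u, χ (p * q) u = χ p u + (MN.of p : MN k (FreeGroup X)) • χ q (p⁻¹ • u)

theorem IsSh.crossed {P : Subgroup (FreeGroup X)} {M : Type*}
    [AddCommGroup M] [Module (MN k (FreeGroup X)) M]
    {χ : FreeGroup X → FreeGroup X ⧸ P → M} (h : IsSh k χ) :
    ∀ p q, χ (p * q) = χ p + shift k P M p • χ q := fun p q => funext fun u => h p q u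

theorem IsSh.ext {P : Subgroup (FreeGroup X)} {M : Type*}
    [AddCommGroup M] [Module (MN k (FreeGroup X)) M]
    {χ ψ : FreeGroup X → FreeGroup X ⧸ P → M} (h : IsSh k χ) (h' : IsSh k ψ)
    (hg : ∀ i, χ (FreeGroup.of i) = ψ (FreeGroup.of i)) : χ = ψ :=
  crossed_ext h.crossed h'.crossed hg

theorem exists_path (k : Type*) [Field k] (P : Subgroup (FreeGroup X)) :
    ∃ K : FreeGroup X → FreeGroup X ⧸ P → ((FreeGroup X ⧸ P) × X →₀ MN k (FreeGroup X)),
      IsSh k K ∧ ∀ i u, K (FreeGroup.of i) u = Finsupp.single (u, i) 1 := by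
  obtain ⟨K, h1, h2⟩ := exists_crossed_free
    (shift k P ((FreeGroup X ⧸ P) × X →₀ MN k (FreeGroup X)))
    (fun (i : X) (u : FreeGroup X ⧸ P) =>
      (Finsupp.single (u, i) 1 : (FreeGroup X ⧸ P) × X →₀ MN k (FreeGroup X)))
  refine ⟨K, fun p q u => ?_, fun i u => congrFun (h1 i) u⟩
  rw [h2 p q]
  rfl

theorem IsSh.map {P : Subgroup (FreeGroup X)} {M M' : Type*}
    [AddCommGroup M] [Module (MN k (FreeGroup X)) M]
    [AddCommGroup M'] [Module (MN k (FreeGroup X)) M']
    {χ : FreeGroup X → FreeGroup X ⧸ P → M} (h : IsSh k χ)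
    (T : M →ₗ[MN k (FreeGroup X)] M') : IsSh k (fun g u => T (χ g u)) := by
  intro p q u
  simp only [h p q u, map_add, map_smul]

/-- the augmentation `e_x ↦ x - 1` -/
noncomputable def augE : (X → MN k (FreeGroup X)) →ₗ[MN k (FreeGroup X)] MN k (FreeGroup X) where
  toFun v := ∑ x, v x * ((MN.of (FreeGroup.of x) : MN k (FreeGroup X)) - 1)
  map_add' v w := by
    simp [add_mul, Finset.sum_add_distrib]
  map_smul' c v := by
    simp [Finset.mul_sum, mul_assoc]

theorem augE_delta (g : FreeGroup X) :
    augE (delta k g) = (MN.of g : MN k (FreeGroup X)) - 1 := by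
  have h1 : ∀ p q : FreeGroup X, augE (delta k (p * q)) =
      augE (delta k p) + (MN.of p : MN k (FreeGroup X)) • augE (delta k q) := by
    intro p q
    rw [delta_mul, map_add, map_smul]
  have h2 : ∀ p q : FreeGroup X, (MN.of (p * q) : MN k (FreeGroup X)) - 1 =
      (MN.of p - 1) + (MN.of p : MN k (FreeGroup X)) • ((MN.of q : MN k (FreeGroup X)) - 1) := by
    intro p q
    rw [map_mul, smul_eq_mul, mul_sub, mul_one]
    abel
  have := crossed_ext (ρ := (MN.of : FreeGroup X →* MN k (FreeGroup X)))
    (χ := fun g => augE (delta k g)) (ψ := fun g => (MN.of g : MN k (FreeGroup X)) - 1) h1 h2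
    (fun i => by
      simp only [delta_of]
      change ∑ x, (Pi.single i 1 : X → MN k (FreeGroup X)) x * _ = _
      rw [Finset.sum_eq_single i]
      · simp
      · intro x _ hx
        simp [Pi.single_eq_of_ne hx]
      · intro h
        exact absurd (Finset.mem_univ i) h)
  exact congrFun this g

section chains

variable {P : Subgroup (FreeGroup X)}

/-- the boundary of a chain on the Schreier graph -/
noncomputable def bd : ((FreeGroup X ⧸ P) × X →₀ MN k (FreeGroup X)) →ₗ[MN k (FreeGroup X)]
    (FreeGroup X ⧸ P → MN k (FreeGroup X)) where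
  toFun c u := ∑ x, c (u, x) - ∑ x, c (FreeGroup.of x • u, x) * MN.of (FreeGroup.of x)
  map_add' c d := by
    funext u
    simp only [Finsupp.add_apply, Finset.sum_add_distrib, add_mul, Pi.add_apply]
    abel
  map_smul' a c := by
    funext u
    simp only [Finsupp.smul_apply, smul_eq_mul, RingHom.id_apply, Pi.smul_apply, mul_sub,
      Finset.mul_sum, mul_assoc]

theorem bd_single (u0 : FreeGroup X ⧸ P) (i : X) :
    bd (Finsupp.single (u0, i) (1 : MN k (FreeGroup X))) =
      (open Classical in Pi.single u0 1 - Pi.single ((FreeGroup.of i)⁻¹ • u0)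
        (MN.of (FreeGroup.of i))) := by
  classical
  funext u
  change (∑ x, (Finsupp.single (u0, i) (1 : MN k (FreeGroup X))) (u, x) -
    ∑ x, (Finsupp.single (u0, i) (1 : MN k (FreeGroup X))) (FreeGroup.of x • u, x) *
      MN.of (FreeGroup.of x)) = _
  congr 1
  · rw [Finset.sum_eq_single i]
    · by_cases h : u = u0
      · subst h
        simp
      · have h' : (u0, i) ≠ (u, i) := fun e => h (Prod.ext_iff.1 e).1.symm
        rw [Finsupp.single_eq_of_ne h'.symm, Pi.single_eq_of_ne h]
    · intro x _ hx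
      have h' : (u0, i) ≠ (u, x) := fun e => hx (Prod.ext_iff.1 e).2.symm
      rw [Finsupp.single_eq_of_ne h'.symm]
    · intro h
      exact absurd (Finset.mem_univ i) h
  · rw [Finset.sum_eq_single i]
    · by_cases h : u = (FreeGroup.of i)⁻¹ • u0
      · subst h
        simp
      · have h' : (u0, i) ≠ (FreeGroup.of i • u, i) := fun e => h (by
          have e' : u0 = FreeGroup.of i • u := (Prod.ext_iff.1 e).1
          rw [e', inv_smul_smul])
        rw [Finsupp.single_eq_of_ne h'.symm, Pi.single_eq_of_ne h, zero_mul]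
    · intro x _ hx
      have h' : (u0, i) ≠ (FreeGroup.of x • u, x) := fun e => hx (Prod.ext_iff.1 e).2.symm
      rw [Finsupp.single_eq_of_ne h'.symm, zero_mul]
    · intro h
      exact absurd (Finset.mem_univ i) h

open Classical in
theorem bd_path {K : FreeGroup X → FreeGroup X ⧸ P → ((FreeGroup X ⧸ P) × X →₀ MN k (FreeGroup X))}
    (hK : IsSh k K) (hK1 : ∀ i u, K (FreeGroup.of i) u = Finsupp.single (u, i) 1)
    (g : FreeGroup X) (u0 : FreeGroup X ⧸ P) :
    bd (K g u0) = Pi.single u0 1 - Pi.single (g⁻¹ • u0) (MN.of g) := by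
  have h2 : IsSh k (fun (g : FreeGroup X) (u0 : FreeGroup X ⧸ P) =>
      (Pi.single u0 1 - Pi.single (g⁻¹ • u0) (MN.of g) : FreeGroup X ⧸ P → MN k (FreeGroup X))) := by
    intro p q u
    simp only
    rw [smul_sub, ← Pi.single_smul, ← Pi.single_smul, smul_eq_mul, smul_eq_mul, mul_one,
      ← map_mul, mul_inv_rev, mul_smul]
    abel
  have := (hK.map bd).ext h2 (fun i => by
    funext u
    simp only [hK1]
    exact bd_single u i)
  exact congrFun (congrFun this g) u0

/-- the total coefficients of a chain -/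
noncomputable def tot : ((FreeGroup X ⧸ P) × X →₀ MN k (FreeGroup X)) →ₗ[MN k (FreeGroup X)]
    (X → MN k (FreeGroup X)) :=
  Finsupp.linearCombination _ fun p => Pi.single p.2 1

theorem tot_apply (c : (FreeGroup X ⧸ P) × X →₀ MN k (FreeGroup X)) (x : X) :
    tot c x = ∑ᶠ u, c (u, x) := by
  classical
  induction c using Finsupp.induction_linear with
  | zero => simp
  | add c d hc hd =>
    rw [map_add, Pi.add_apply, hc, hd, ← finsum_add_distrib]
    · rfl
    · refine (c.support.finite_toSet.image Prod.fst).subset ?_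
      intro u hu
      exact ⟨(u, x), Finsupp.mem_support_iff.2 hu, rfl⟩
    · refine (d.support.finite_toSet.image Prod.fst).subset ?_
      intro u hu
      exact ⟨(u, x), Finsupp.mem_support_iff.2 hu, rfl⟩
  | single p a =>
    obtain ⟨u, y⟩ := p
    rw [tot, Finsupp.linearCombination_single, Pi.smul_apply, smul_eq_mul]
    by_cases hxy : x = y
    · subst hxy
      rw [Pi.single_eq_same, mul_one, finsum_eq_single _ u]
      · rw [Finsupp.single_eq_same]
      · intro u' hu'
        have h' : (u', x) ≠ (u, x) := fun e => hu' (Prod.ext_iff.1 e).1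
        rw [Finsupp.single_eq_of_ne h']
    · simp only
      rw [Pi.single_eq_of_ne hxy, mul_zero]
      symm
      rw [← finsum_zero (α := FreeGroup X ⧸ P)]
      refine finsum_congr fun u' => ?_
      have h' : (u', x) ≠ (u, y) := fun e => hxy (Prod.ext_iff.1 e).2
      rw [Finsupp.single_eq_of_ne h']

theorem tot_path {K : FreeGroup X → FreeGroup X ⧸ P → ((FreeGroup X ⧸ P) × X →₀ MN k (FreeGroup X))}
    (hK : IsSh k K) (hK1 : ∀ i u, K (FreeGroup.of i) u = Finsupp.single (u, i) 1)
    (g : FreeGroup X) (u0 : FreeGroup X ⧸ P) : tot (K g u0) = delta k g := by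
  have h2 : IsSh k (fun (g : FreeGroup X) (_ : FreeGroup X ⧸ P) => delta k g) := by
    intro p q u
    exact delta_mul p q
  have := (hK.map tot).ext h2 (fun i => by
    funext u
    simp only [hK1]
    rw [tot, Finsupp.linearCombination_single, one_smul, delta_of])
  exact congrFun (congrFun this g) u0

theorem mem_P_aux (P : Subgroup (FreeGroup X)) (g : FreeGroup X) (u : FreeGroup X ⧸ P) :
    u.out⁻¹ * g * (g⁻¹ • u).out ∈ P := by
  rw [mul_assoc]
  refine QuotientGroup.eq.1 ?_
  have e1 : ((g * (g⁻¹ • u).out : FreeGroup X) : FreeGroup X ⧸ P) =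
      g • (((g⁻¹ • u).out : FreeGroup X) : FreeGroup X ⧸ P) := rfl
  rw [e1, QuotientGroup.out_eq', QuotientGroup.out_eq', smul_inv_smul]

/-- the values of the functional on the edges -/
noncomputable def mw (χ : P → MN k (FreeGroup X)) (g : FreeGroup X) (u : FreeGroup X ⧸ P) :
    MN k (FreeGroup X) := MN.of u.out * χ ⟨_, mem_P_aux P g u⟩

theorem mw_isSh {χ : P → MN k (FreeGroup X)}
    (hχ : ∀ p q : P, χ (p * q) = χ p + (MN.of (p : FreeGroup X) : MN k (FreeGroup X)) * χ q) :
    IsSh k (mw χ) := by
  intro p q u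
  simp only [mw, smul_eq_mul]
  have e1 : (⟨_, mem_P_aux P (p * q) u⟩ : P) = ⟨_, mem_P_aux P p u⟩ * ⟨_, mem_P_aux P q (p⁻¹ • u)⟩ := by
    apply Subtype.ext
    simp only [Subgroup.coe_mul]
    rw [mul_inv_rev, mul_smul]
    group
  rw [e1, hχ, mul_add, ← mul_assoc, ← mul_assoc, ← map_mul, ← map_mul]
  congr 3
  group

theorem functional_path {K : FreeGroup X → FreeGroup X ⧸ P →
      ((FreeGroup X ⧸ P) × X →₀ MN k (FreeGroup X))}
    (hK : IsSh k K) (hK1 : ∀ i u, K (FreeGroup.of i) u = Finsupp.single (u, i) 1)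
    {χ : P → MN k (FreeGroup X)}
    (hχ : ∀ p q : P, χ (p * q) = χ p + (MN.of (p : FreeGroup X) : MN k (FreeGroup X)) * χ q)
    (g : FreeGroup X) (u0 : FreeGroup X ⧸ P) :
    Finsupp.linearCombination (MN k (FreeGroup X))
      (fun p : (FreeGroup X ⧸ P) × X => mw χ (FreeGroup.of p.2) p.1) (K g u0) = mw χ g u0 := by
  have := (hK.map (Finsupp.linearCombination (MN k (FreeGroup X))
      (fun p : (FreeGroup X ⧸ P) × X => mw χ (FreeGroup.of p.2) p.1))).ext (mw_isSh hχ) (fun i => by
    funext u
    simp only [hK1]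
    rw [Finsupp.linearCombination_single, one_smul])
  exact congrFun (congrFun this g) u0

end chains

/-- for a closed subgroup `delta` of a free basis is linearly independent -/
theorem basis_indep {P : Subgroup (FreeGroup X)} (hP : IsCl k P) {ι : Type*}
    (b : FreeGroupBasis ι P) :
    LinearIndependent (MN k (FreeGroup X)) (fun i => delta k (b i : FreeGroup X)) := by
  classical
  rw [linearIndependent_iff']
  intro s a ha i hi
  obtain ⟨K, hK, hK1⟩ := exists_path k P
  set u0 : FreeGroup X ⧸ P := ((1 : FreeGroup X) : FreeGroup X ⧸ P) with hu0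
  set c : (FreeGroup X ⧸ P) × X →₀ MN k (FreeGroup X) :=
    ∑ j ∈ s, a j • K (b j : FreeGroup X) u0 with hc
  have hfix : ∀ p : P, (p : FreeGroup X)⁻¹ • u0 = u0 := by
    intro p
    change (((p : FreeGroup X)⁻¹ * 1 : FreeGroup X) : FreeGroup X ⧸ P) =
      ((1 : FreeGroup X) : FreeGroup X ⧸ P)
    rw [mul_one]
    exact QuotientGroup.eq.2 (by simp)
  have haug : ∑ j ∈ s, a j * ((MN.of (b j : FreeGroup X) : MN k (FreeGroup X)) - 1) = 0 := by
    have := congrArg (augE (X := X) (k := k)) ha
    rw [map_sum, map_zero] at this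
    simp only [map_smul, augE_delta, smul_eq_mul] at this
    exact this
  have hbd : bd c = 0 := by
    rw [hc, map_sum]
    simp only [map_smul, bd_path hK hK1, hfix]
    have e1 : ∀ j ∈ s, a j • (Pi.single u0 1 - Pi.single u0 (MN.of (b j : FreeGroup X)) :
        FreeGroup X ⧸ P → MN k (FreeGroup X)) =
        -Pi.single u0 (a j * ((MN.of (b j : FreeGroup X) : MN k (FreeGroup X)) - 1)) := by
      intro j _
      rw [← Pi.single_sub, ← Pi.single_smul, ← Pi.single_neg]
      congr 1
      rw [smul_eq_mul, ← mul_neg]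
      congr 1
      abel
    rw [Finset.sum_congr rfl e1, Finset.sum_neg_distrib]
    have e2 : ∑ j ∈ s, (Pi.single u0 (a j * ((MN.of (b j : FreeGroup X) : MN k (FreeGroup X)) - 1)) :
        FreeGroup X ⧸ P → MN k (FreeGroup X)) =
        Pi.single u0 (∑ j ∈ s, a j * ((MN.of (b j : FreeGroup X) : MN k (FreeGroup X)) - 1)) := by
      funext u
      rw [Finset.sum_apply]
      by_cases h : u = u0
      · subst h
        simp
      · simp [Pi.single_eq_of_ne h]
    rw [e2, haug]
    simp
  have htot : tot c = 0 := by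
    rw [hc, map_sum]
    simp only [map_smul, tot_path hK hK1]
    exact ha
  have hzero : (fun (u : FreeGroup X ⧸ P) (x : X) => c (u, x)) = 0 := by
    refine injectivity (k := k) hP ?_ ?_ ?_
    · refine (c.support.finite_toSet.image Prod.fst).subset ?_
      intro u hu
      by_contra hno
      apply hu
      funext x
      by_contra hx
      exact hno ⟨(u, x), Finsupp.mem_support_iff.2 hx, rfl⟩
    · intro u
      have := congrFun hbd u
      exact sub_eq_zero.1 this
    · intro x
      have := congrFun htot x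
      rw [tot_apply] at this
      exact this
  have hc0 : c = 0 := by
    refine Finsupp.ext fun p => ?_
    exact congrFun (congrFun hzero p.1) p.2
  obtain ⟨χ, hχ1, hχ2⟩ := exists_crossed b
    ((MN.of : FreeGroup X →* MN k (FreeGroup X)).comp P.subtype)
    (fun j => if j = i then (1 : MN k (FreeGroup X)) else 0)
  have hχ : ∀ p q : P, χ (p * q) = χ p + (MN.of (p : FreeGroup X) : MN k (FreeGroup X)) * χ q :=
    fun p q => hχ2 p q
  have hfun := congrArg (Finsupp.linearCombination (MN k (FreeGroup X))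
      (fun p : (FreeGroup X ⧸ P) × X => mw χ (FreeGroup.of p.2) p.1)) hc0
  rw [hc, map_sum, map_zero] at hfun
  simp only [map_smul, functional_path hK hK1 hχ, smul_eq_mul] at hfun
  -- value of `mw` at elements of `P`
  have ho : u0.out ∈ P := by
    have := QuotientGroup.eq.1 (QuotientGroup.out_eq' u0 : ((u0.out : FreeGroup X) :
      FreeGroup X ⧸ P) = ((1 : FreeGroup X) : FreeGroup X ⧸ P))
    rw [mul_one] at this
    exact (P.inv_mem_iff).1 this
  have hmw : ∀ p : P, mw χ (p : FreeGroup X) u0 =
      χ p + ((MN.of (p : FreeGroup X) : MN k (FreeGroup X)) - 1) * χ ⟨u0.out, ho⟩ := by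
    intro p
    have e1 : (⟨_, mem_P_aux P (p : FreeGroup X) u0⟩ : P) =
        (⟨u0.out, ho⟩ : P)⁻¹ * (p * ⟨u0.out, ho⟩) := by
      apply Subtype.ext
      simp only [Subgroup.coe_mul, Subgroup.coe_inv]
      rw [hfix, mul_assoc]
    have e2 : χ (⟨u0.out, ho⟩ : P)⁻¹ =
        -((MN.of ((⟨u0.out, ho⟩ : P)⁻¹ : P) : MN k (FreeGroup X)) * χ ⟨u0.out, ho⟩) :=
      crossed_inv (ρ := ((MN.of : FreeGroup X →* MN k (FreeGroup X)).comp P.subtype)) hχ2 _
    have e3 : (MN.of u0.out : MN k (FreeGroup X)) *
        MN.of (((⟨u0.out, ho⟩ : P)⁻¹ : P) : FreeGroup X) = 1 := by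
      rw [← map_mul]
      simp
    rw [mw, e1, hχ, e2, hχ, mul_add, mul_neg, ← mul_assoc, ← mul_assoc, e3, one_mul, one_mul,
      sub_mul, one_mul]
    abel
  simp only [hmw, mul_add, Finset.sum_add_distrib, ← mul_assoc] at hfun
  rw [← Finset.sum_mul, haug, zero_mul, add_zero] at hfun
  simp only [hχ1, mul_ite, mul_one, mul_zero, Finset.sum_ite_eq', if_pos hi] at hfun
  exact hfun

theorem VS_basis {P : Subgroup (FreeGroup X)} {ι : Type*} (b : FreeGroupBasis ι P) :
    VS k (P : Set (FreeGroup X)) = Submodule.span (MN k (FreeGroup X))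
      (range fun i => delta k (b i : FreeGroup X)) := by
  refine le_antisymm ?_ (Submodule.span_le.2 ?_)
  · refine Submodule.span_le.2 ?_
    rintro _ ⟨g, hg, rfl⟩
    have hall : ∀ p : FreeGroup ι, delta k ((b.repr.symm p : P) : FreeGroup X) ∈
        Submodule.span (MN k (FreeGroup X)) (range fun i => delta k (b i : FreeGroup X)) := by
      intro p
      induction p using FreeGroup.induction_on with
      | C1 => simp
      | of i =>
        exact Submodule.subset_span ⟨i, rfl⟩
      | inv_of i _ =>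
        have e1 : ((b.repr.symm (FreeGroup.of i)⁻¹ : P) : FreeGroup X) =
            (b i : FreeGroup X)⁻¹ := by
          rw [map_inv]
          rfl
        change delta k ((b.repr.symm (FreeGroup.of i)⁻¹ : P) : FreeGroup X) ∈ _
        rw [e1, delta_inv]
        exact Submodule.neg_mem _ (Submodule.smul_mem _ _ (Submodule.subset_span ⟨i, rfl⟩))
      | mul p q hp hq =>
        rw [map_mul, Subgroup.coe_mul, delta_mul]
        exact Submodule.add_mem _ hp (Submodule.smul_mem _ _ hq)
    have := hall (b.repr ⟨g, hg⟩)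
    simpa using this
  · rintro _ ⟨i, rfl⟩
    exact delta_mem_VS (b i).2

theorem card_basis {P : Subgroup (FreeGroup X)} (hP : IsCl k P) {ι : Type*}
    (b : FreeGroupBasis ι P) : Finite ι ∧
      Nat.card ι = Module.finrank (MN k (FreeGroup X)) (VS k (P : Set (FreeGroup X))) := by
  have hli := basis_indep hP b
  have hfin : Finite ι := hli.finite_of_isNoetherian
  refine ⟨hfin, ?_⟩
  haveI := Fintype.ofFinite ι
  rw [VS_basis (k := k) b, finrank_span_eq_card hli, Nat.card_eq_fintype_card]

end rank

end Pool.Agent.Helper45.BH
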